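import Pool.Agent.helper40.SU.SpecC

set_option autoImplicit false

open Finset

namespace Pool.Agent.SU

theorem CJB_mem {a j D D' x y : ℕ} (ha : a ∣ j) (ha0 : 0 < a) (hj0 : j ≠ 0)
    (h : (x, y) ∈ Cst j D D') : (x % a, y % a) ∈ Cst a D D' := by
  unfold Cst at h ⊢
  rw [mem_filter, mem_product, mem_range, mem_range] at h ⊢
  obtain ⟨-, h1, h2⟩ := h
  simp only at h1 h2 ⊢
  refine ⟨⟨Nat.mod_lt _ ha0, Nat.mod_lt _ ha0⟩, ?_, ?_⟩
  · have e1 : (a : ℤ) ∣ (D : ℤ) * (x : ℤ) ^ 2 - (D' : ℤ) * (y : ℤ) ^ 2 :=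
      (Int.natCast_dvd_natCast.2 ha).trans h1
    have e2 : ((x % a : ℕ) : ℤ) ≡ x [ZMOD a] := by
      rw [Int.natCast_mod]
      exact Int.mod_modEq _ _
    have e3 : ((y % a : ℕ) : ℤ) ≡ y [ZMOD a] := by
      rw [Int.natCast_mod]
      exact Int.mod_modEq _ _
    have e4 : (D : ℤ) * ((x % a : ℕ) : ℤ) ^ 2 - (D' : ℤ) * ((y % a : ℕ) : ℤ) ^ 2 ≡
        (D : ℤ) * (x : ℤ) ^ 2 - (D' : ℤ) * (y : ℤ) ^ 2 [ZMOD a] :=
      ((e2.pow 2).mul_left _).sub ((e3.pow 2).mul_left _)
    exact (Int.ModEq.dvd_iff e4).2 e1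
  · intro p hp
    have hpa : p ∣ a := Nat.dvd_of_mem_primeFactors hp
    have hpp : p.Prime := Nat.prime_of_mem_primeFactors hp
    have h3 := h2 p (Nat.mem_primeFactors.2 ⟨hpp, hpa.trans ha, hj0⟩)
    have e1 : x % a ≡ x [MOD p] := (Nat.mod_modEq x a).of_dvd hpa
    exact ((e1.mul_left D).dvd_iff dvd_rfl).2 h3

theorem CJB_card {a b D D' : ℕ} (ha : 0 < a) (hb : 0 < b) (hab : a.Coprime b) :
    (Cst (a * b) D D').card ≤ (Cst a D D').card * (Cst b D D').card := by
  rw [← card_product]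
  have hne : a * b ≠ 0 := by positivity
  apply card_le_card_of_injOn (fun z => ((z.1 % a, z.2 % a), (z.1 % b, z.2 % b)))
  · rintro ⟨x, y⟩ hz
    have hz' : (x, y) ∈ Cst (a * b) D D' := hz
    exact mem_coe.2 (mem_product.2 ⟨CJB_mem (dvd_mul_right a b) ha hne hz',
      CJB_mem (dvd_mul_left b a) hb hne hz'⟩)
  · rintro ⟨x, y⟩ hz ⟨x', y'⟩ hz' heq
    have hz1 : (x, y) ∈ Cst (a * b) D D' := hz
    have hz2 : (x', y') ∈ Cst (a * b) D D' := hz'
    unfold Cst at hz1 hz2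
    rw [mem_filter, mem_product, mem_range, mem_range] at hz1 hz2
    simp only [Prod.mk.injEq] at heq
    obtain ⟨⟨e1, e2⟩, e3, e4⟩ := heq
    have k1 : x ≡ x' [MOD a * b] := (Nat.modEq_and_modEq_iff_modEq_mul hab).1 ⟨e1, e3⟩
    have k2 : y ≡ y' [MOD a * b] := (Nat.modEq_and_modEq_iff_modEq_mul hab).1 ⟨e2, e4⟩
    have k3 : x = x' := Nat.ModEq.eq_of_lt_of_lt k1 hz1.1.1 hz2.1.1
    have k4 : y = y' := Nat.ModEq.eq_of_lt_of_lt k2 hz1.1.2 hz2.1.2
    rw [k3, k4]

theorem CJB_wj {a b : ℕ} (hab : a.Coprime b) : wj (a * b) = wj a * wj b := by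
  unfold wj om
  have h1 : (a * b).primeFactors = a.primeFactors ∪ b.primeFactors :=
    hab.primeFactors_mul
  have h2 : Disjoint a.primeFactors b.primeFactors := hab.disjoint_primeFactors
  rw [h1, card_union_of_disjoint h2, prod_union h2, Nat.cast_mul,
    Real.sqrt_mul (Nat.cast_nonneg a), pow_add]
  rw [div_mul_div_comm]
  ring_nf

theorem CJB_gw (D : ℕ) {a b : ℕ} (hab : a.Coprime b) : gw D (a * b) = gw D a * gw D b := by
  unfold gw
  rw [Nat.Coprime.gcd_mul D hab, Nat.cast_mul,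
    Real.mul_rpow (Nat.cast_nonneg _) (Nat.cast_nonneg _)]

theorem CJB_wj0 (a : ℕ) : 0 ≤ wj a := by
  unfold wj
  positivity

theorem CJB_gw0 (D a : ℕ) : 0 ≤ gw D a := by
  unfold gw
  positivity

theorem CJB (hCJP : CJP_stmt) : CJB_stmt := by
  intro j D D' hj hD hD'
  induction j using Nat.recOnPosPrimePosCoprime with
  | prime_pow p n hp hn =>
    have hp2 : p ≠ 2 := by
      rintro rfl
      have h0 : Even (2 ^ n) := (even_two).pow_of_ne_zero (by omega)
      exact (Nat.not_even_iff_odd.2 hj) h0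
    exact hCJP p n D D' hp hp2 hn hD hD'
  | zero => exact absurd hj (by decide)
  | one =>
    have h1 : (Cst 1 D D').card ≤ 1 := by
      unfold Cst
      refine (card_filter_le _ _).trans ?_
      rw [card_product, card_range]
    have h2 : ((Cst 1 D D').card : ℝ) ≤ 1 := by exact_mod_cast h1
    have h3 : wj 1 = 1 := by
      unfold wj om
      simp
    have h4 : ∀ D, gw D 1 = 1 := by
      intro D
      unfold gw
      simp
    rw [h3, h4, h4]
    simpa using h2
  | coprime a b ha hb hab iha ihb =>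
    have hodd := Nat.odd_mul.1 hj
    have h1 := iha hodd.1
    have h2 := ihb hodd.2
    have h3 : ((Cst (a * b) D D').card : ℝ) ≤ (Cst a D D').card * (Cst b D D').card := by
      exact_mod_cast CJB_card (D := D) (D' := D') (by omega) (by omega) hab
    refine h3.trans ?_
    rw [CJB_wj hab, CJB_gw D hab, CJB_gw D' hab, Nat.cast_mul]
    calc ((Cst a D D').card : ℝ) * (Cst b D D').card
        ≤ ((a : ℝ) ^ 2 * wj a * gw D a * gw D' a) * ((b : ℝ) ^ 2 * wj b * gw D b * gw D' b) := by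
          apply mul_le_mul h1 h2 (Nat.cast_nonneg _)
          have := CJB_wj0 a
          have := CJB_gw0 D a
          have := CJB_gw0 D' a
          positivity
      _ = ((a : ℝ) * b) ^ 2 * (wj a * wj b) * (gw D a * gw D b) * (gw D' a * gw D' b) := by
          ring

end Pool.Agent.SU
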