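import Pool.Agent.helper40.SU.SpecC

set_option autoImplicit false

open Finset

namespace Pool.Agent.SU

theorem DGN_sW {q s₀ D s : ℕ} {T δ : ℝ} (hT : 0 ≤ T) (hδ : 0 < δ) (hδ1 : δ ≤ 1)
    (hs : s ∈ sW q s₀ T δ D) : ((D : ℝ) * s ^ 2) ≤ 4 * T ^ 2 := by
  unfold sW at hs
  rw [mem_filter] at hs
  obtain ⟨-, -, -, h⟩ := hs
  have hδ2 : δ ^ 2 ≤ 1 := by nlinarith
  have h1 : √(D : ℝ) * s ≤ 2 * T := h.trans (by nlinarith)
  have h2 : 0 ≤ √(D : ℝ) * s := by positivity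
  have h3 : (√(D : ℝ) * s) ^ 2 = (D : ℝ) * s ^ 2 := by
    rw [mul_pow, Real.sq_sqrt (Nat.cast_nonneg D)]
  rw [← h3]
  nlinarith

theorem DGN_cop {q w₀ f : ℕ} (h : w₀.Coprime (2 * q)) (hf : f ≡ w₀ [MOD 4 * q]) :
    f.Coprime (2 * q) := by
  have h1 : f ≡ w₀ [MOD 2 * q] := hf.of_dvd ⟨2, by ring⟩
  unfold Nat.Coprime
  rw [h1.gcd_eq]
  exact h

/-- the number of `f` for a pair `s ≠ s'` -/
theorem DGN_fib {q s₀ w₀ D : ℕ} {T δ θ : ℝ} (hθ : 0 < θ) (hT : 1 ≤ T) (hδ : 0 < δ)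
    (hδ1 : δ ≤ 1) (hD : 1 ≤ D) (hw : w₀.Coprime (2 * q))
    (hdiv : ∀ N : ℕ, 1 ≤ N → ((N.divisors.filter (fun f => f.Coprime (2 * q))).card : ℝ) ≤
      (N : ℝ) ^ θ) {s s' : ℕ} (hs : s ∈ sW q s₀ T δ D) (hs' : s' ∈ sW q s₀ T δ D)
    (hne : s ≠ s') :
    ((((PP q s₀ w₀ T δ D D).filter (fun x => x.1 ≠ x.2.1)).filter
      (fun x => (x.1, x.2.1) = (s, s'))).card : ℝ) ≤ (4 * T ^ 2) ^ θ := by
  set N : ℕ := ((D : ℤ) * (s : ℤ) ^ 2 - (D : ℤ) * (s' : ℤ) ^ 2).natAbs with hN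
  have hN0 : (D : ℤ) * (s : ℤ) ^ 2 - (D : ℤ) * (s' : ℤ) ^ 2 ≠ 0 := by
    intro h0
    have h1 : (D : ℤ) * ((s : ℤ) ^ 2 - (s' : ℤ) ^ 2) = 0 := by linarith
    rcases mul_eq_zero.1 h1 with h2 | h2
    · have : (D : ℤ) ≠ 0 := by exact_mod_cast (by omega : D ≠ 0)
      exact this h2
    · have h3 : (s : ℤ) ^ 2 = (s' : ℤ) ^ 2 := by linarith
      have h4 : s ^ 2 = s' ^ 2 := by exact_mod_cast h3
      exact hne (Nat.pow_left_injective (by norm_num) h4)
  have hN1 : 1 ≤ N := by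
    have := Int.natAbs_pos.2 hN0
    omega
  have hNT : (N : ℝ) ≤ 4 * T ^ 2 := by
    have h1 : (N : ℝ) = |(D : ℝ) * (s : ℝ) ^ 2 - (D : ℝ) * (s' : ℝ) ^ 2| := by
      rw [hN, Nat.cast_natAbs]
      push_cast
      rfl
    rw [h1]
    have h2 := DGN_sW (by linarith) hδ hδ1 hs
    have h3 := DGN_sW (by linarith) hδ hδ1 hs'
    have h4 : 0 ≤ (D : ℝ) * (s : ℝ) ^ 2 := by positivity
    have h5 : 0 ≤ (D : ℝ) * (s' : ℝ) ^ 2 := by positivity
    rw [abs_le]
    constructor <;> linarith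
  have hcard : (((PP q s₀ w₀ T δ D D).filter (fun x => x.1 ≠ x.2.1)).filter
      (fun x => (x.1, x.2.1) = (s, s'))).card ≤
      (N.divisors.filter (fun f => f.Coprime (2 * q))).card := by
    apply card_le_card_of_injOn (fun x => x.2.2)
    · rintro ⟨a, b, f⟩ hx
      rw [mem_coe, mem_filter, mem_filter] at hx
      obtain ⟨⟨hx, -⟩, heq⟩ := hx
      unfold PP at hx
      rw [mem_filter, mem_product, mem_product] at hx
      obtain ⟨⟨-, -, hf⟩, hdv⟩ := hx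
      simp only [Prod.mk.injEq] at heq
      simp only at hdv hf
      rw [heq.1, heq.2] at hdv
      unfold wW at hf
      rw [mem_filter] at hf
      rw [mem_coe, mem_filter, Nat.mem_divisors]
      refine ⟨⟨?_, by omega⟩, DGN_cop hw hf.2.1⟩
      exact Int.natCast_dvd.1 hdv
    · rintro ⟨a, b, f⟩ hx ⟨a', b', f'⟩ hx' hff
      rw [mem_coe, mem_filter] at hx hx'
      have e1 := hx.2
      have e2 := hx'.2
      simp only [Prod.mk.injEq] at e1 e2 hff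
      rw [e1.1, e1.2, e2.1, e2.2]
      exact Prod.ext rfl (Prod.ext rfl hff)
  calc ((((PP q s₀ w₀ T δ D D).filter (fun x => x.1 ≠ x.2.1)).filter
      (fun x => (x.1, x.2.1) = (s, s'))).card : ℝ)
      ≤ ((N.divisors.filter (fun f => f.Coprime (2 * q))).card : ℝ) := by exact_mod_cast hcard
    _ ≤ (N : ℝ) ^ θ := hdiv N hN1
    _ ≤ (4 * T ^ 2) ^ θ := Real.rpow_le_rpow (Nat.cast_nonneg _) hNT hθ.le

theorem DGN (hFST : FST_stmt) (hTAU : TAU_stmt) : DGN_stmt := by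
  obtain ⟨Z₀, hZ⟩ := hTAU (1 / 1000000) (by norm_num)
  refine ⟨Z₀, fun Z hZZ q hq hSm s₀ w₀ D T δ hw hD hDT hT hδ hδ1 => ?_⟩
  have hdiv := (hZ Z hZZ q hSm).2
  have hq1 : 1 ≤ q := hq.pos
  have hs := (hFST q s₀ w₀ D T δ hq1 hD (by linarith) hδ hδ1).1
  set B : ℝ := (4 * T ^ 2) ^ (1 / 1000000 : ℝ) with hB
  have hB0 : 0 ≤ B := by positivity
  have hDpos : (0 : ℝ) < D := by exact_mod_cast hD
  have hsD : 0 < √(D : ℝ) := Real.sqrt_pos.2 hDpos
  have hsDT : √(D : ℝ) ≤ T := by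
    rw [← Real.sqrt_sq (by linarith : 0 ≤ T)]
    exact Real.sqrt_le_sqrt hDT
  -- the number of `s`
  have hsc : ((sW q s₀ T δ D).card : ℝ) ≤ 2 * (T / √(D : ℝ)) := by
    have h1 : ((sW q s₀ T δ D).card : ℝ) ≤ δ ^ 2 * T / (32 * q * √(D : ℝ)) + 1 := by
      have := (abs_le.1 hs).2
      linarith
    have h2 : 1 ≤ T / √(D : ℝ) := by
      rw [le_div_iff₀ hsD]
      linarith
    have h3 : δ ^ 2 * T / (32 * q * √(D : ℝ)) ≤ T / √(D : ℝ) := by
      have hq' : (1 : ℝ) ≤ q := by exact_mod_cast hq1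
      have h4' : δ ^ 2 ≤ 1 := by nlinarith
      have h4 : δ ^ 2 * T ≤ T := by nlinarith
      apply div_le_div₀ (by linarith) h4 hsD
      nlinarith
    linarith
  have hsc2 : ((sW q s₀ T δ D).card : ℝ) ^ 2 ≤ 4 * (T ^ 2 / D) := by
    have h1 : (2 * (T / √(D : ℝ))) ^ 2 = 4 * (T ^ 2 / D) := by
      rw [mul_pow, div_pow, Real.sq_sqrt hDpos.le]
      norm_num
    rw [← h1]
    exact pow_le_pow_left₀ (Nat.cast_nonneg _) hsc 2
  -- splitting
  have hsplit := card_filter_add_card_filter_not (s := PP q s₀ w₀ T δ D D)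
    (fun x => x.1 = x.2.1)
  have hp1 : ((PP q s₀ w₀ T δ D D).filter (fun x => x.1 = x.2.1)).card ≤
      (sW q s₀ T δ D).card * (wW q w₀ T δ).card := by
    rw [← card_product]
    apply card_le_card_of_injOn (fun x => (x.1, x.2.2))
    · rintro ⟨a, b, f⟩ hx
      rw [mem_coe, mem_filter] at hx
      have h1 := hx.1
      unfold PP at h1
      rw [mem_filter, mem_product, mem_product] at h1
      exact mem_coe.2 (mem_product.2 ⟨h1.1.1, h1.1.2.2⟩)
    · rintro ⟨a, b, f⟩ hx ⟨a', b', f'⟩ hx' hff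
      rw [mem_coe, mem_filter] at hx hx'
      have e1 : a = b := hx.2
      have e2 : a' = b' := hx'.2
      simp only [Prod.mk.injEq] at hff
      rw [← e1, ← e2, hff.1, hff.2]
  have hp2 : (((PP q s₀ w₀ T δ D D).filter (fun x => x.1 ≠ x.2.1)).card : ℝ) ≤
      B * (4 * (T ^ 2 / D)) := by
    have h1 : ((PP q s₀ w₀ T δ D D).filter (fun x => x.1 ≠ x.2.1)).card ≤
        ⌊B⌋₊ * (((PP q s₀ w₀ T δ D D).filter (fun x => x.1 ≠ x.2.1)).image
          (fun x => (x.1, x.2.1))).card := by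
      apply card_le_mul_card_image
      rintro ⟨s, s'⟩ hss
      rw [mem_image] at hss
      obtain ⟨⟨a, b, f⟩, hx, heq⟩ := hss
      rw [mem_filter] at hx
      obtain ⟨hx, hne⟩ := hx
      unfold PP at hx
      rw [mem_filter, mem_product, mem_product] at hx
      simp only [Prod.mk.injEq] at heq
      apply Nat.le_floor
      apply DGN_fib (by norm_num) hT hδ hδ1 hD hw hdiv
      · rw [← heq.1]
        exact hx.1.1
      · rw [← heq.2]
        exact hx.1.2.1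
      · rw [← heq.1, ← heq.2]
        exact hne
    have h2 : (((PP q s₀ w₀ T δ D D).filter (fun x => x.1 ≠ x.2.1)).image
          (fun x => (x.1, x.2.1))).card ≤ (sW q s₀ T δ D).card * (sW q s₀ T δ D).card := by
      rw [← card_product]
      apply card_le_card
      intro z hz
      rw [mem_image] at hz
      obtain ⟨⟨a, b, f⟩, hx, rfl⟩ := hz
      rw [mem_filter] at hx
      have h3 := hx.1
      unfold PP at h3
      rw [mem_filter, mem_product, mem_product] at h3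
      exact mem_product.2 ⟨h3.1.1, h3.1.2.1⟩
    have h3 : (((PP q s₀ w₀ T δ D D).filter (fun x => x.1 ≠ x.2.1)).card : ℝ) ≤
        (⌊B⌋₊ : ℝ) * ((sW q s₀ T δ D).card : ℝ) ^ 2 := by
      have h4 := h1.trans (Nat.mul_le_mul_left _ h2)
      have h5 : (((PP q s₀ w₀ T δ D D).filter (fun x => x.1 ≠ x.2.1)).card : ℝ) ≤
          ((⌊B⌋₊ * ((sW q s₀ T δ D).card * (sW q s₀ T δ D).card) : ℕ) : ℝ) := by
        exact_mod_cast h4
      refine h5.trans (le_of_eq ?_)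
      push_cast
      ring
    refine h3.trans ?_
    exact mul_le_mul (Nat.floor_le hB0) hsc2 (by positivity) hB0
  have hsum : ((PP q s₀ w₀ T δ D D).card : ℝ) =
      (((PP q s₀ w₀ T δ D D).filter (fun x => x.1 = x.2.1)).card : ℝ) +
      (((PP q s₀ w₀ T δ D D).filter (fun x => x.1 ≠ x.2.1)).card : ℝ) := by
    exact_mod_cast hsplit.symm
  have hp1' : (((PP q s₀ w₀ T δ D D).filter (fun x => x.1 = x.2.1)).card : ℝ) ≤
      ((sW q s₀ T δ D).card : ℝ) * (wW q w₀ T δ).card := by exact_mod_cast hp1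
  have hfin : B * (4 * (T ^ 2 / D)) ≤ 16 * T ^ 2 / D * B := by
    have h0 : 0 ≤ T ^ 2 / D * B := by positivity
    have e1 : B * (4 * (T ^ 2 / D)) = 4 * (T ^ 2 / D * B) := by ring
    have e2 : 16 * T ^ 2 / D * B = 16 * (T ^ 2 / D * B) := by ring
    rw [e1, e2]
    linarith
  rw [hsum]
  linarith

end Pool.Agent.SU
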